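import Pool.Agent.Lib.lead.CXGraphRed

namespace Pool.Agent.Results.MP_4c1bf1_lc.Poly
open Pool.Agent.Lib.CX

/-- the clique graph: vertices are the (nonempty) maximal cliques, adjacent when they intersect -/
def K {W : Type} (H : SimpleGraph W) : SimpleGraph {Q : Set W // Q.Nonempty ∧ Maximal H.IsClique Q} :=
  SimpleGraph.fromRel fun P Q => (P.1 ∩ Q.1).Nonempty

/-- `G` is the clique graph of a finite graph -/
def IsCliqueGraph {V : Type} (G : SimpleGraph V) : Prop :=
  ∃ (W : Type) (_ : Finite W) (H : SimpleGraph W), Nonempty (G ≃g K H)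

/-- the vertices split into an independent set with at most `k` elements and a clique -/
def SplitLe {V : Type} (k : ℕ) (G : SimpleGraph V) : Prop :=
  ∃ S : Finset V, S.card ≤ k ∧ G.IsIndepSet (S : Set V) ∧ G.IsClique (S : Set V)ᶜ

theorem blow {V V' : Type} [Finite V] {G : SimpleGraph V} {G' : SimpleGraph V'} (f : V → V') (hf : f.Surjective)
    (h : ∀ u v, u ≠ v → (G.Adj u v ↔ f u = f v ∨ G'.Adj (f u) (f v))) (hG : IsCliqueGraph G') : IsCliqueGraph G := by
  obtain ⟨W, _, H, ⟨e⟩⟩ := hG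
  let q : V → Set W := fun v => (e (f v)).1
  let H' : SimpleGraph (W ⊕ V) :=
    { Adj := fun x y => match x, y with
        | .inl a, .inl b => H.Adj a b
        | .inl a, .inr v => a ∈ q v
        | .inr v, .inl a => a ∈ q v
        | .inr _, .inr _ => False
      symm := ⟨by rintro (a | a) (b | b) h <;> first | exact h.symm | exact h⟩
      loopless := ⟨by rintro (a | a) h <;> simp at h⟩ }
  let Q : V → Set (W ⊕ V) := fun v => insert (.inr v) (Sum.inl '' q v)
  have hQ : ∀ v, H'.IsClique (Q v) := by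
    rintro v _ (rfl | ⟨a, ha, rfl⟩) _ (rfl | ⟨b, hb, rfl⟩) h
    · exact (h rfl).elim
    · exact hb
    · exact ha
    · exact (e (f v)).2.2.1 ha hb fun e => h (e ▸ rfl)
  have hsub : ∀ v C, H'.IsClique C → .inr v ∈ C → C ⊆ Q v := by
    rintro v C hC hv (a | u) hx
    · exact .inr ⟨a, hC hx hv (by simp), rfl⟩
    · by_contra h
      exact hC hx hv fun e => h (.inl e)
  refine ⟨W ⊕ V, inferInstance, H', ⟨⟨Equiv.ofBijective
    (fun v => ⟨Q v, ⟨_, .inl rfl⟩, hQ v, fun C hC h => hsub v C hC (h (.inl rfl))⟩) ⟨fun u v e => ?_, ?_⟩, ?_⟩⟩⟩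
  · have e : Q u = Q v := congrArg Subtype.val e
    have : Sum.inr u ∈ Q v := e ▸ .inl rfl
    simpa [Q] using this
  · rintro ⟨C, ⟨x, hx⟩, hC⟩
    suffices ∃ v, C ⊆ Q v from this.imp fun v h => Subtype.ext (hC.eq_of_subset (hQ v) h).symm
    by_cases h : ∃ v, .inr v ∈ C
    · exact h.imp fun v h => hsub v C hC.1 h
    · have h1 : H.IsClique (Sum.inl ⁻¹' C) := fun a ha b hb hab => hC.1 ha hb (by simpa)
      obtain ⟨D, h2, h3⟩ := Finite.exists_le_maximal h1
      obtain ⟨v, hv⟩ := (e.surjective.comp hf) ⟨D, by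
        rcases x with a | a
        · exact ⟨a, h2 hx⟩
        · exact (h ⟨a, hx⟩).elim, h3⟩
      refine ⟨v, ?_⟩
      rintro (a | a) ha
      · exact .inr ⟨a, by rw [show q v = D from congrArg Subtype.val hv]; exact h2 ha, rfl⟩
      · exact (h ⟨a, ha⟩).elim
  · intro u v
    have h1 : u ≠ v → ((Q u ∩ Q v).Nonempty ↔ (q u ∩ q v).Nonempty) := fun huv => by
      constructor
      · rintro ⟨_, rfl | ⟨a, ha, rfl⟩, hb⟩
        · simp [Q, huv] at hb
        · exact ⟨a, ha, by simpa [Q] using hb⟩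
      · rintro ⟨a, ha, hb⟩
        exact ⟨.inl a, .inr ⟨a, ha, rfl⟩, .inr ⟨a, hb, rfl⟩⟩
    by_cases huv : u = v
    · simp [huv]
    · have h2 : Q u ≠ Q v := fun e => by
        have : Sum.inr u ∈ Q v := e ▸ .inl rfl
        simp [Q, huv] at this
      rw [h u v huv, ← e.map_rel_iff]
      simp only [K, SimpleGraph.fromRel_adj, Equiv.ofBijective_apply, ne_eq, Subtype.mk.injEq, h2, not_false_eq_true,
        true_and, Set.inter_comm (Q v), h1 huv, or_self, EmbeddingLike.apply_eq_iff_eq]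
      by_cases h3 : f u = f v
      · simpa [h3, q] using (e (f v)).2.1
      · simp only [h3, q, false_or, not_false_eq_true, true_and]
        exact ⟨.inl, fun h => h.elim id fun h => by rwa [Set.inter_comm]⟩

theorem label {V : Type} {k : ℕ} {G : SimpleGraph V} (h : SplitLe k G) : ∃ l : V → Option (Fin k) × (Fin k → Prop),
    ∀ u v, u ≠ v → (G.Adj u v ↔ ((l u).1 = none ∧ (l v).1 = none) ∨ (∃ i, (l u).1 = some i ∧ (l v).2 i) ∨
      ∃ i, (l v).1 = some i ∧ (l u).2 i) ∧ (l u = l v → G.Adj u v) := by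
  classical
  obtain ⟨S, h1, h2, h3⟩ := h
  obtain ⟨ι⟩ : Nonempty (S ↪ Fin k) := Function.Embedding.nonempty_of_card_le (by simpa)
  refine ⟨fun v => (if h : v ∈ S then some (ι ⟨v, h⟩) else none, fun i => ∃ s, ι s = i ∧ G.Adj v s), fun u v h => ?_⟩
  by_cases hu : u ∈ S <;> by_cases hv : v ∈ S
  · have := h2 hu hv h
    have := h2 hv hu h.symm
    simp [*]
  · simp [hu, hv, G.adj_comm]
  · simp [hu, hv]
  · simp [hu, hv, h3 hu hv h]

theorem core (k : ℕ) : ∃ s, ∀ a : Gr, SplitLe k a.G → IsCliqueGraph a.G → ∃ m ≤ s, ∃ (G' : SimpleGraph (Fin m))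
    (g : Fin m → Fin a.n), IsCliqueGraph G' ∧ g.Injective ∧ (∀ i j, G'.Adj i j ↔ a.G.Adj (g i) (g j)) ∧
      ∀ v, ∃ i, ∀ w, (v = w ∨ a.G.Adj v w) ↔ (g i = w ∨ a.G.Adj (g i) w) := by
  classical
  by_contra hn
  simp only [not_exists, not_forall] at hn
  choose a h1 h2 h3 using hn
  choose l hl using fun s => label (h1 s)
  let c : ℕ → (Option (Fin k) × (Fin k → Prop)) × Bool → ℕ := fun s p =>
    if p.2 then Fintype.card {v // l s v = p.1} else if ∃ v, l s v = p.1 then 0 else 1
  obtain ⟨φ, hφ⟩ := wellQuasiOrdered_le.exists_monotone_subseq c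
  have hc := hφ 0 (a (φ 0)).n (Nat.zero_le _)
  have hle : (a (φ 0)).n ≤ φ (a (φ 0)).n := φ.strictMono.le_apply
  generalize φ (a (φ 0)).n = j at hc hle
  generalize φ 0 = i at hc hle
  have e := fun p => (Function.Embedding.nonempty_of_card_le (show Fintype.card {v // l i v = p} ≤
    Fintype.card {v // l j v = p} from hc (p, true))).some
  let g : Fin (a i).n → Fin (a j).n := fun v => (e (l i v) ⟨v, rfl⟩).1
  have g1 : ∀ v, l j (g v) = l i v := fun v => (e (l i v) ⟨v, rfl⟩).2
  have g2 : ∀ v p (h : l i v = p), g v = (e p ⟨v, h⟩).1 := by rintro v _ rfl; rfl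
  have g3 : g.Injective := fun u v h => by
    have h4 : l i u = l i v := by rw [← g1, h, g1]
    rw [g2 u _ h4] at h
    exact congrArg Subtype.val ((e _).injective (Subtype.ext h))
  refine h3 j _ ⟨hle, (a i).G, g, h2 i, g3, fun u v => ?_, fun v => ?_⟩
  · by_cases h : u = v
    · simp [h]
    · rw [(hl i u v h).1, (hl j _ _ (g3.ne h)).1, g1, g1]
  · obtain ⟨u, hu⟩ : ∃ u, l i u = l j v := by
      by_contra h
      have := hc (l j v, false)
      simp [c, h] at this
    refine ⟨u, fun w => ?_⟩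
    rw [← g1] at hu
    by_cases h : g u = v
    · rw [h]
    by_cases h4 : v = w
    · subst h4; simp [(hl j _ _ h).2 hu]
    by_cases h5 : g u = w
    · subst h5; simp [(hl j _ _ h4).2 hu.symm]
    rw [(hl j _ _ h4).1, (hl j _ _ h5).1, hu]
    simp [h4, h5]

def L (n : ℕ) : ℕ → List (List ℕ)
  | 0 => [[]]
  | s + 1 => [] :: (List.range n).flatMap fun v => (L n s).map fun t => v :: t

theorem mem_L (n s : ℕ) (l : List ℕ) : l ∈ L n s ↔ l.length ≤ s ∧ ∀ x ∈ l, x < n := by
  induction s generalizing l with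
  | zero => cases l <;> simp [L]
  | succ s ih => cases l <;> simp [L, ih]; tauto

theorem pt_L (s : ℕ) : PT fun a : Gr => L a.1.length s := by
  induction s with
  | zero => unfold L; fun_prop
  | succ s ih =>
    have : PT fun p : Gr × List (List ℕ) => [] :: (List.range p.1.1.length).flatMap fun v => p.2.map fun t => v :: t := by
      fun_prop
    exact this.comp (PT.id.pair ih)

def pat (a : Gr) (l : List ℕ) : Gr := (l.map fun _ => (),
  (List.range l.length ×ˢ List.range l.length).filter fun e => a.adjB (l.getD e.1 0) (l.getD e.2 0))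

theorem pat_n (a : Gr) (l : List ℕ) : (pat a l).n = l.length := by simp [pat, Gr.n]

theorem pat_adj (a : Gr) (l : List ℕ) (i j : Fin (pat a l).n) (u v : Fin a.n) (hu : l.getD i 0 = u)
    (hv : l.getD j 0 = v) : (pat a l).G.Adj i j ↔ a.G.Adj u v := by
  have hi : i.1 < l.length := i.2.trans_eq (pat_n a l)
  have hj : j.1 < l.length := j.2.trans_eq (pat_n a l)
  rw [Gr.adj_iff]
  simp only [pat, List.mem_filter, List.mem_product, List.mem_range, hi, hj, hu, hv, Gr.adjB_iff, true_and,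
    a.G.adj_comm v u, or_self, and_iff_right_iff_imp]
  intro h e
  exact h.ne (Fin.ext (by rw [← hu, ← hv, e]))

set_option synthInstance.maxSize 2000 in
theorem result : ∀ k : ℕ, InP fun a : {a : Gr // SplitLe k a.G} => IsCliqueGraph a.1.G := by
  intro k
  obtain ⟨s, hs⟩ := core k
  obtain ⟨tbl, ht⟩ : ∃ tbl : List Gr, ∀ a l, l.length ≤ s → (pat a l ∈ tbl ↔ IsCliqueGraph (pat a l).G) := by
    classical
    refine ⟨((List.range (s + 1)).flatMap fun n => (List.range n ×ˢ List.range n).sublists.map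
      fun e => (List.replicate n (), e)).filter fun a => decide (IsCliqueGraph (Gr.G a)), fun a l hl => ?_⟩
    simp only [List.mem_filter, decide_eq_true_eq, and_iff_right_iff_imp, List.mem_flatMap, List.mem_map,
      List.mem_range, List.mem_sublists]
    exact fun _ => ⟨l.length, by omega, (pat a l).2, List.filter_sublist, by simp [pat]⟩
  have h2 : PT fun p : Gr × List ℕ => pat p.1 p.2 := by unfold pat; fun_prop
  have h1 : InP fun a : Gr × List (List ℕ) => ∃ l ∈ a.2, l.Nodup ∧ pat a.1 l ∈ tbl ∧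
      ∀ v < a.1.n, ∃ u ∈ l, ∀ w < a.1.n, (v = w ∨ a.1.adjB v w = true) ↔ (u = w ∨ a.1.adjB u w = true) :=
    InP.of_decide (i := fun _ => inferInstance) (by fun_prop)
  refine h1.red ⟨fun a => (a.1, L a.1.1.length s), PT.id.val.pair ((pt_L s).comp PT.id.val), ?_⟩
  rintro ⟨a, ha⟩
  constructor
  · intro h
    obtain ⟨m, hm, G', g, h3, h4, h5, h6⟩ := hs a ha h
    have hn : (pat a (List.ofFn fun i => (g i).1)).n = m := by simp [pat_n]
    refine ⟨List.ofFn fun i => (g i).1, (mem_L ..).2 ⟨by simpa, by simp⟩,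
      List.nodup_ofFn.2 (Fin.val_injective.comp h4), (ht _ _ (by simpa)).2 ?_, fun v hv => ?_⟩
    · refine blow (Fin.cast hn) (finCongr hn).surjective (fun u v h => ?_) h3
      rw [pat_adj a _ u v (g (u.cast hn)) (g (v.cast hn)) (by simp [u.2.trans_eq hn]; rfl) (by simp [v.2.trans_eq hn]; rfl), h5]
      simp [h]
    · obtain ⟨i, hi⟩ := h6 ⟨v, hv⟩
      refine ⟨g i, by simp, fun w hw => ?_⟩
      simpa [← Gr.adjB_iff, Fin.ext_iff] using hi ⟨w, hw⟩
  · rintro ⟨l, h3, h4, h5, h6⟩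
    rw [mem_L] at h3
    have hn := pat_n a l
    let g : Fin (pat a l).n → Fin a.n := fun i => ⟨l[i.1]'(hn ▸ i.2), h3.2 _ (List.getElem_mem _)⟩
    have hg : g.Injective := fun i j e => Fin.ext ((h4.getElem_inj_iff).1 (congrArg Fin.val e))
    have : ∀ v : Fin a.n, ∃ i, (∀ w, (v = w ∨ a.G.Adj v w) ↔ (g i = w ∨ a.G.Adj (g i) w)) ∧ ∀ j, g j = v → i = j :=
      fun v => by
        by_cases h : ∃ j, g j = v
        · obtain ⟨j, rfl⟩ := h
          exact ⟨j, fun _ => .rfl, fun i e => (hg e).symm⟩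
        · obtain ⟨u, hu, h7⟩ := h6 v v.2
          obtain ⟨i, hi, rfl⟩ := List.getElem_of_mem hu
          exact ⟨⟨i, hn ▸ hi⟩, fun w => by simpa [← Gr.adjB_iff, Fin.ext_iff, g] using h7 w w.2,
            fun j e => (h ⟨j, e⟩).elim⟩
    choose f f1 f2 using this
    refine blow f (fun j => ⟨g j, f2 _ j rfl⟩) (fun u v h => ?_) ((ht a l h3.1).1 h5)
    have e : ∀ i, l.getD i.1 0 = (g i).1 := fun i => List.getD_eq_getElem _ _ _
    rw [pat_adj a l _ _ _ _ (e _) (e _), ← hg.eq_iff]
    have a1 := f1 u v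
    have a2 := f1 v (g (f u))
    rw [eq_comm, a.G.adj_comm, ← a1, eq_comm (a := g (f v)), a.G.adj_comm (g (f v))] at a2
    rw [← a2]
    simp [h]

end Pool.Agent.Results.MP_4c1bf1_lc.Poly
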